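import Mathlib

set_option autoImplicit false

/-!
# Fine normal ultrafilters over the small subsets of a set of size `κ⁺` fail the Galvin property

Let `κ` be an uncountable cardinal and let `X` be a set of size `κ⁺`.  We show that no fine normal
`κ`-complete ultrafilter over `P_κ(X)` has the Galvin property `Gal(U, κ, μ)` for `κ ≤ μ ≤ κ⁺⁺`,
and, if `2 ^ κ = κ⁺`, for no `κ ≤ μ ≤ 2 ^ κ⁺`.
-/

namespace Pool.Agent.Results.MP_a3089e_lc.GalvinFails

open Cardinal Set

universe u

/-- `P_κ(X)`: the subsets of `X` of size less than `κ`. -/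
abbrev Small (κ : Cardinal.{u}) (X : Type u) : Type u := {x : Set X // #x < κ}

/-- `U` is a fine normal ultrafilter over `P_κ(X)`. -/
structure IsFineNormal (κ : Cardinal.{u}) (X : Type u) (U : Ultrafilter (Small κ X)) : Prop where
  /-- `κ`-completeness -/
  complete : ∀ S : Set (Set (Small κ X)), #S < κ → (∀ s ∈ S, s ∈ U) → ⋂₀ S ∈ U
  /-- fineness -/
  fine : ∀ a : X, {x : Small κ X | a ∈ x.1} ∈ U
  /-- normality -/
  normal : ∀ f : Small κ X → X, {x : Small κ X | f x ∈ x.1} ∈ U →
    ∃ a : X, {x : Small κ X | f x = a} ∈ U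

/-- The Galvin property `Gal(U, μ, ν)`: among any `ν` many distinct members of `U` there are `μ`
many whose intersection is in `U`.  (A family of `ν` many distinct members is a set `S ⊆ U` of
size `ν`.) -/
def Gal {Y : Type u} (U : Ultrafilter Y) (μ ν : Cardinal.{u}) : Prop :=
  ∀ S : Set (Set Y), (∀ s ∈ S, s ∈ U) → #S = ν → ∃ T : Set (Set Y), T ⊆ S ∧ #T = μ ∧ ⋂₀ T ∈ U

section

variable {κ : Cardinal.{u}} {X : Type u}

/-- The set of small sets closed under `f`. -/
def Cl (κ : Cardinal.{u}) {X : Type u} (f : X → X) : Set (Small κ X) :=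
  {x | ∀ a ∈ x.1, f a ∈ x.1}

theorem Cl_mem {U : Ultrafilter (Small κ X)} (hU : IsFineNormal κ X U) (f : X → X) :
    Cl κ f ∈ U := by
  classical
  by_contra hne
  have hc : (Cl κ f)ᶜ ∈ U := Ultrafilter.compl_mem_iff_notMem.mpr hne
  have key : ∀ x ∈ (Cl κ f)ᶜ, ∃ a ∈ x.1, f a ∉ x.1 := by
    intro x hx
    by_contra hh
    push Not at hh
    exact hx hh
  have hX : Nonempty X := by
    obtain ⟨x, hx⟩ := U.nonempty_of_mem hc
    obtain ⟨a, -, -⟩ := key x hx
    exact ⟨a⟩
  let g : Small κ X → X := fun x => if h : x ∈ (Cl κ f)ᶜ then (key x h).choose else hX.some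
  have hg : ∀ x (_ : x ∈ (Cl κ f)ᶜ), g x ∈ x.1 ∧ f (g x) ∉ x.1 := by
    intro x hx
    have : g x = (key x hx).choose := by simp only [g, dif_pos hx]
    rw [this]
    exact (key x hx).choose_spec
  obtain ⟨a, ha⟩ := hU.normal g (Filter.mem_of_superset hc fun x hx => (hg x hx).1)
  have h3 := Filter.inter_mem (Filter.inter_mem ha hc) (hU.fine (f a))
  obtain ⟨x, ⟨hx1, hx2⟩, hx3⟩ := U.nonempty_of_mem h3
  have := (hg x hx2).2
  rw [show g x = a from hx1] at this
  exact this hx3

/-- The family `F` is pairwise almost different (mod `κ`). -/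
def AD (κ : Cardinal.{u}) {X : Type u} (F : Set (X → X)) : Prop :=
  ∀ f ∈ F, ∀ g ∈ F, f ≠ g → #{a : X | f a = g a} ≤ κ

/-- In an almost different family, `κ` many functions are pairwise different at one point. -/
theorem AD.exists_point (hκ : ℵ₀ < κ) (hX : #X = Order.succ κ) {F : Set (X → X)}
    (hF : AD κ F) {ι : Type u} (hι : #ι = κ) (f : ι → X → X) (hf : ∀ i, f i ∈ F)
    (hinj : Function.Injective f) : ∃ a : X, Function.Injective fun i => f i a := by
  classical
  by_contra hne
  push Not at hne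
  have hcov : (Set.univ : Set X) ⊆
      ⋃ p : {p : ι × ι // p.1 ≠ p.2}, {a : X | f p.1.1 a = f p.1.2 a} := by
    intro a _
    have h := hne a
    simp only [Function.Injective, not_forall] at h
    obtain ⟨i, j, hij, hne⟩ := h
    exact Set.mem_iUnion.mpr ⟨⟨(i, j), hne⟩, hij⟩
  have h1 : #(⋃ p : {p : ι × ι // p.1 ≠ p.2}, {a : X | f p.1.1 a = f p.1.2 a} : Set X) ≤ κ := by
    refine (Cardinal.mk_iUnion_le_sum_mk).trans ?_
    refine (Cardinal.sum_le_sum (g := fun _ => κ) _ fun p => ?_).trans ?_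
    · exact hF _ (hf _) _ (hf _) fun h => p.2 (hinj h)
    · rw [Cardinal.sum_const, Cardinal.lift_id, Cardinal.lift_id]
      refine (mul_le_mul_left (Cardinal.mk_subtype_le _) κ).trans ?_
      rw [Cardinal.mk_prod, Cardinal.lift_id, hι,
        Cardinal.mul_eq_self hκ.le, Cardinal.mul_eq_self hκ.le]
  have h2 : #X ≤ κ := by
    rw [← Cardinal.mk_univ (α := X)]
    exact (Cardinal.mk_le_mk_of_subset hcov).trans h1
  rw [hX] at h2
  exact absurd (Order.lt_succ κ) (not_lt.mpr h2)

/-- `κ` many of the closure sets never have their intersection in `U`. -/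
theorem AD.not_mem {U : Ultrafilter (Small κ X)} (hU : IsFineNormal κ X U) (hκ : ℵ₀ < κ)
    (hX : #X = Order.succ κ) {F : Set (X → X)}
    (hF : AD κ F) {ι : Type u} (hι : #ι = κ) (f : ι → X → X) (hf : ∀ i, f i ∈ F)
    (hinj : Function.Injective f) : (⋂ i, Cl κ (f i)) ∉ U := by
  intro hmem
  obtain ⟨a, ha⟩ := hF.exists_point hκ hX hι f hf hinj
  obtain ⟨x, hx1, hx2⟩ := U.nonempty_of_mem (Filter.inter_mem hmem (hU.fine a))
  have h : ∀ i, f i a ∈ x.1 := fun i => (Set.mem_iInter.mp hx1 i) a hx2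
  have hle : #ι ≤ #x.1 := by
    refine Cardinal.mk_le_of_injective (f := fun i => (⟨f i a, h i⟩ : x.1)) ?_
    intro i j hij
    exact ha (Subtype.ext_iff.mp hij)
  rw [hι] at hle
  exact absurd x.2 (not_lt.mpr hle)

theorem exists_subset_card {Y : Type u} {S : Set Y} {c : Cardinal.{u}} (h : c ≤ #S) :
    ∃ T : Set Y, T ⊆ S ∧ #T = c := by
  obtain ⟨T, hT⟩ := Cardinal.le_mk_iff_exists_subset.mp h
  exact ⟨T, hT.1, hT.2⟩

theorem AD.image_card {U : Ultrafilter (Small κ X)} (hU : IsFineNormal κ X U) (hκ : ℵ₀ < κ)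
    (hX : #X = Order.succ κ) {F : Set (X → X)} (hF : AD κ F) (hlt : κ < #F) :
    #F ≤ #(Cl κ '' F) := by
  classical
  by_contra hlt'
  push Not at hlt'
  -- the fibres have size less than `κ`
  have hfib : ∀ A : Cl κ '' F, #{f : F | Cl κ f.1 = A.1} ≤ κ := by
    intro A
    by_contra hh
    push Not at hh
    obtain ⟨T, hTs, hT⟩ := exists_subset_card hh.le
    refine hF.not_mem hU hκ hX (ι := T) hT (fun i => i.1.1) (fun i => i.1.2)
      (fun i j h => Subtype.ext (Subtype.ext h)) ?_
    have : (⋂ i : T, Cl κ (i.1.1)) = ⋂ _ : T, A.1 := by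
      refine Set.iInter_congr fun i => hTs i.2
    rw [this]
    have hne : Nonempty T := by
      rw [← Cardinal.mk_ne_zero_iff, hT]
      exact (Cardinal.aleph0_pos.trans hκ).ne'
    rw [Set.iInter_const]
    obtain ⟨f, hf, hfA⟩ := A.2
    rw [← hfA]
    exact Cl_mem hU f
  have h1 : #F ≤ #(Cl κ '' F) * κ := by
    have hcov : (Set.univ : Set F) ⊆ ⋃ A : Cl κ '' F, {f : F | Cl κ f.1 = A.1} := by
      intro f _
      exact Set.mem_iUnion.mpr ⟨⟨Cl κ f.1, f.1, f.2, rfl⟩, rfl⟩
    rw [← Cardinal.mk_univ (α := F)]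
    refine (Cardinal.mk_le_mk_of_subset hcov).trans ?_
    refine (Cardinal.mk_iUnion_le_sum_mk).trans ?_
    refine (Cardinal.sum_le_sum (g := fun _ => κ) _ hfib).trans ?_
    rw [Cardinal.sum_const, Cardinal.lift_id, Cardinal.lift_id]
  exact absurd (Cardinal.mul_lt_of_lt (hκ.le.trans hlt.le) hlt' hlt) (not_lt.mpr h1)

/-- An almost different family of size `ν > κ` refutes the Galvin property below `ν`. -/
theorem not_gal {U : Ultrafilter (Small κ X)} (hU : IsFineNormal κ X U) (hκ : ℵ₀ < κ)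
    (hX : #X = Order.succ κ) {F : Set (X → X)} (hF : AD κ F) (hlt : κ < #F)
    {μ : Cardinal.{u}} (hμ : μ ≤ #F) : ¬ Gal U κ μ := by
  classical
  intro hG
  obtain ⟨S, hSF, hS⟩ := exists_subset_card (hμ.trans (hF.image_card hU hκ hX hlt))
  obtain ⟨T, hTS, hT, hTU⟩ := hG S (by
    intro s hs
    obtain ⟨f, -, rfl⟩ := hSF hs
    exact Cl_mem hU f) hS
  have hch : ∀ t : T, ∃ f ∈ F, Cl κ f = t.1 := fun t => hSF (hTS t.2)
  choose f hf hft using hch
  refine hF.not_mem hU hκ hX (ι := T) hT f hf ?_ ?_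
  · intro i j hij
    exact Subtype.ext (by rw [← hft i, ← hft j, hij])
  · have : (⋂ i : T, Cl κ (f i)) = ⋂₀ T := by
      rw [Set.sInter_eq_iInter]
      exact Set.iInter_congr fun i => hft i
    rw [this]
    exact hTU

/-- A well-order of `X` with initial segments of size at most `κ`. -/
theorem exists_wo (hX : #X = Order.succ κ) :
    ∃ r : X → X → Prop, IsWellOrder X r ∧ ∀ a, #{b : X | r b a} ≤ κ := by
  obtain ⟨r, hr, hr'⟩ := Cardinal.exists_ord_eq X
  refine ⟨r, hr, fun a => ?_⟩
  have h := Ordinal.typein_lt_type r a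
  rw [← hr', Cardinal.lt_ord, Ordinal.card_typein, hX, Order.lt_succ_iff] at h
  exact h

/-- There is an almost different family of size at least `κ⁺⁺`. -/
theorem exists_AD (hκ : ℵ₀ < κ) (hX : #X = Order.succ κ) :
    ∃ F : Set (X → X), AD κ F ∧ Order.succ (Order.succ κ) ≤ #F := by
  classical
  obtain ⟨r, hr, hseg⟩ := exists_wo hX
  have hne : Nonempty X := by
    rw [← Cardinal.mk_ne_zero_iff, hX]
    exact (Cardinal.aleph0_pos.trans (hκ.trans (Order.lt_succ κ))).ne'
  obtain ⟨F, hF⟩ := zorn_subset {F : Set (X → X) | AD κ F} (by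
    intro c hc hchain
    refine ⟨⋃₀ c, ?_, fun s hs => Set.subset_sUnion_of_mem hs⟩
    rintro f ⟨s, hs, hfs⟩ g ⟨t, ht, hgt⟩ hfg
    rcases hchain.total hs ht with h | h
    · exact hc ht f (h hfs) g hgt hfg
    · exact hc hs f hfs g (h hgt) hfg)
  refine ⟨F, hF.prop, ?_⟩
  by_contra hlt
  rw [not_le, Order.lt_succ_iff, ← hX] at hlt
  have hFne : F.Nonempty := by
    by_contra hemp
    rw [Set.not_nonempty_iff_eq_empty] at hemp
    have h1 : AD κ ({id} : Set (X → X)) := by
      intro f hf g hg hfg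
      rw [Set.mem_singleton_iff] at hf hg
      exact absurd (hf.trans hg.symm) hfg
    have h2 := hF.eq_of_subset h1 (by rw [hemp]; exact Set.empty_subset _)
    rw [hemp] at h2
    exact Set.singleton_ne_empty id h2.symm
  have : Nonempty F := hFne.to_subtype
  obtain ⟨e⟩ := Cardinal.le_def _ _ |>.mp hlt
  let s : X → F := Function.invFun e
  have hs : Function.Surjective s := Function.invFun_surjective e.injective
  have hg : ∀ a : X, ∃ y : X, ∀ b, r b a → (s b).1 a ≠ y := by
    intro a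
    by_contra hh
    push Not at hh
    have h1 : #X ≤ #{b : X | r b a} := by
      choose c hc1 hc2 using hh
      refine Cardinal.mk_le_of_injective (f := fun y => (⟨c y, hc1 y⟩ : {b : X | r b a})) ?_
      intro y z hyz
      have : c y = c z := Subtype.ext_iff.mp hyz
      rw [← hc2 y, ← hc2 z, this]
    have h2 := h1.trans (hseg a)
    rw [hX] at h2
    exact absurd (Order.lt_succ κ) (not_lt.mpr h2)
  choose g hg using hg
  have hag : ∀ f ∈ F, #{a : X | f a = g a} ≤ κ := by
    intro f hf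
    obtain ⟨b, hb⟩ := hs ⟨f, hf⟩
    have hsub : {a : X | f a = g a} ⊆ insert b {a : X | r a b} := by
      intro a ha
      rcases trichotomous_of r a b with h | h | h
      · exact Or.inr h
      · exact Or.inl h
      · exact absurd (by rw [hb]; exact ha) (hg a b h)
    refine (Cardinal.mk_le_mk_of_subset hsub).trans ?_
    refine Cardinal.mk_insert_le.trans ?_
    refine (add_le_add (hseg b) (Cardinal.one_le_aleph0.trans hκ.le)).trans ?_
    rw [Cardinal.add_eq_self hκ.le]
  have hgF : g ∉ F := by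
    intro h
    have h1 := hag g h
    have h2 : {a : X | g a = g a} = Set.univ := by
      ext a; simp
    rw [h2, Cardinal.mk_univ, hX] at h1
    exact absurd (Order.lt_succ κ) (not_lt.mpr h1)
  have hAD : AD κ (insert g F) := by
    rintro f (rfl | hf) f' (rfl | hf') hne'
    · exact absurd rfl hne'
    · have h1 := hag f' hf'
      have h2 : {a : X | f a = f' a} = {a : X | f' a = f a} := by
        ext a; exact eq_comm
      rw [h2]
      exact h1
    · exact hag f hf
    · exact hF.prop f hf f' hf' hne'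
  have h2 := hF.eq_of_subset hAD (Set.subset_insert g F)
  exact hgF (by rw [h2]; exact Set.mem_insert g F)

/-- If `2 ^ κ = κ⁺` there is an almost different family of size `2 ^ κ⁺`. -/
theorem exists_AD_pow (hκ : ℵ₀ < κ) (hX : #X = Order.succ κ)
    (hpow : (2 : Cardinal.{u}) ^ κ = Order.succ κ) :
    ∃ F : Set (X → X), AD κ F ∧ #F = 2 ^ Order.succ κ := by
  classical
  obtain ⟨r, hr, hseg⟩ := exists_wo hX
  have hcode : ∀ a : X, ∃ c : Set {b : X | r b a} → X, Function.Injective c := by
    intro a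
    have h : #(Set {b : X | r b a}) ≤ #X := by
      rw [Cardinal.mk_set, hX, ← hpow]
      exact Cardinal.power_le_power_left two_ne_zero (hseg a)
    obtain ⟨e⟩ := Cardinal.le_def _ _ |>.mp h
    exact ⟨e, e.injective⟩
  choose c hc using hcode
  let f : Set X → X → X := fun A a => c a {b | b.1 ∈ A}
  have hf : ∀ A B : Set X, ∀ b : X, (b ∈ A ↔ b ∉ B) → {a : X | f A a = f B a} ⊆
      insert b {a : X | r a b} := by
    intro A B b hb a ha
    rcases trichotomous_of r a b with h | h | h
    · exact Or.inr h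
    · exact Or.inl h
    · exfalso
      have h1 := hc a ha
      have h2 : (⟨b, h⟩ : {b : X | r b a}) ∈ {b : {b : X | r b a} | b.1 ∈ A} ↔
          (⟨b, h⟩ : {b : X | r b a}) ∈ {b : {b : X | r b a} | b.1 ∈ B} := by rw [h1]
      simp only [Set.mem_ofPred_eq] at h2
      tauto
  have hsmall : ∀ b : X, #(insert b {a : X | r a b} : Set X) ≤ κ := by
    intro b
    refine Cardinal.mk_insert_le.trans ?_
    refine (add_le_add (hseg b) (Cardinal.one_le_aleph0.trans hκ.le)).trans ?_
    rw [Cardinal.add_eq_self hκ.le]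
  have hdiff : ∀ A B : Set X, A ≠ B → #{a : X | f A a = f B a} ≤ κ := by
    intro A B hAB
    have : ∃ b, (b ∈ A ↔ b ∉ B) := by
      by_contra hh
      push Not at hh
      refine hAB (Set.ext fun b => ?_)
      have := hh b
      tauto
    obtain ⟨b, hb⟩ := this
    exact (Cardinal.mk_le_mk_of_subset (hf A B b hb)).trans (hsmall b)
  have hinj : Function.Injective f := by
    intro A B hAB
    by_contra hne
    have h1 := hdiff A B hne
    have h2 : {a : X | f A a = f B a} = Set.univ := by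
      ext a
      simp [hAB]
    rw [h2, Cardinal.mk_univ, hX] at h1
    exact absurd (Order.lt_succ κ) (not_lt.mpr h1)
  refine ⟨Set.range f, ?_, ?_⟩
  · rintro _ ⟨A, rfl⟩ _ ⟨B, rfl⟩ hne
    exact hdiff A B fun h => hne (by rw [h])
  · rw [Cardinal.mk_range_eq f hinj, Cardinal.mk_set, hX]

end

/-- **The Galvin property fails for fine normal ultrafilters.**  Let `κ` be an uncountable cardinal,
let `#X = κ⁺`, and let `U` be a fine normal ultrafilter over `P_κ(X)`.  Let `κ ≤ μ ≤ 2 ^ κ⁺` where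
`μ ≤ κ⁺⁺` or `2 ^ κ = κ⁺`.  Then `Gal(U, κ, μ)` fails: some `μ` many members of `U` include no `κ`
many whose intersection is in `U`.  In particular `Gal(U, κ, 2 ^ κ⁺)` fails if `2 ^ κ = κ⁺` or
`2 ^ κ⁺ = κ⁺⁺`. -/
theorem result :
    ∀ (κ : Cardinal.{u}) (X : Type u), ℵ₀ < κ → #X = Order.succ κ →
      ∀ U : Ultrafilter (Small κ X), IsFineNormal κ X U →
        ∀ μ : Cardinal.{u}, κ ≤ μ → μ ≤ 2 ^ Order.succ κ →
          (μ ≤ Order.succ (Order.succ κ) ∨ (2 : Cardinal.{u}) ^ κ = Order.succ κ) →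
            ¬ Gal U κ μ := by
  intro κ X hκ hX U hU μ _ hμ hor
  rcases hor with h | h
  · obtain ⟨F, hF, hcard⟩ := exists_AD hκ hX
    refine not_gal hU hκ hX hF ?_ (h.trans hcard)
    exact (Order.lt_succ κ).trans ((Order.lt_succ _).trans_le hcard)
  · obtain ⟨F, hF, hcard⟩ := exists_AD_pow hκ hX h
    refine not_gal hU hκ hX hF ?_ (hμ.trans hcard.ge)
    rw [hcard]
    exact (Order.lt_succ κ).trans (Cardinal.cantor _)

end Pool.Agent.Results.MP_a3089e_lc.GalvinFails
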